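import Pool.Agent.Helper66.PD.Stmts

/-! Row ITV: intervals from a path decomposition. -/

set_option autoImplicit false

namespace Pool.Agent.Helper66.PD

theorem st_ITV : ST_ITV := by
  classical
  intro P _ _ w hw
  obtain ⟨m, B, hcov, hadj, hconv, hcard⟩ := hw
  let F : P → Finset (Fin m) := fun x => Finset.univ.filter fun i => x ∈ B i
  have hF : ∀ x, (F x).Nonempty := by
    intro x
    obtain ⟨i, hi⟩ := hcov x
    exact ⟨i, Finset.mem_filter.2 ⟨Finset.mem_univ _, hi⟩⟩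
  let lo : P → Fin m := fun x => (F x).min' (hF x)
  let hi : P → Fin m := fun x => (F x).max' (hF x)
  have hlo : ∀ x, x ∈ B (lo x) := fun x => (Finset.mem_filter.1 ((F x).min'_mem (hF x))).2
  have hhi : ∀ x, x ∈ B (hi x) := fun x => (Finset.mem_filter.1 ((F x).max'_mem (hF x))).2
  have hin : ∀ x i, x ∈ B i → lo x ≤ i ∧ i ≤ hi x := by
    intro x i hx
    have h : i ∈ F x := Finset.mem_filter.2 ⟨Finset.mem_univ _, hx⟩
    exact ⟨(F x).min'_le i h, (F x).le_max' i h⟩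
  refine ⟨m, fun x => (lo x : ℕ), fun x => (hi x : ℕ), fun x => ?_, fun x => (hi x).2, ?_, ?_⟩
  · exact Fin.le_def.1 (hin x _ (hlo x)).2
  · intro x y hxy
    obtain ⟨i, h1, h2⟩ := hadj x y ((SimpleGraph.fromRel_adj _ _ _).2 ⟨hxy.ne, Or.inl hxy⟩)
    exact ⟨Fin.le_def.1 ((hin x i h1).1.trans (hin y i h2).2),
      Fin.le_def.1 ((hin y i h2).1.trans (hin x i h1).2)⟩
  · intro p
    by_cases hp : p < m
    · refine (Finset.card_le_card fun x hx => ?_).trans (hcard ⟨p, hp⟩)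
      obtain ⟨-, h1, h2⟩ := Finset.mem_filter.1 hx
      exact hconv (lo x) ⟨p, hp⟩ (hi x) x (Fin.le_def.2 h1) (Fin.le_def.2 h2) (hlo x) (hhi x)
    · rw [Finset.filter_eq_empty_iff.2, Finset.card_empty]
      · exact Nat.zero_le _
      · rintro x - ⟨-, h2⟩
        exact hp (lt_of_le_of_lt h2 (hi x).2)

end Pool.Agent.Helper66.PD
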